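import Mathlib

set_option autoImplicit false

namespace Pool.Agent.Q157.EC

open Polynomial

/-- A monic complex polynomial vanishing at `0` with at most two distinct roots. -/
theorem two_roots (P : ℂ[X]) (hm : P.Monic) (h : P.roots.toFinset.card ≤ 2)
    (h0 : P.eval 0 = 0) : ∃ (s r : ℕ) (a : ℂ), a ≠ 0 ∧ P = X ^ s * (X + C a) ^ r := by
  classical
  have hP : P ≠ 0 := hm.ne_zero
  have hz : (0 : ℂ) ∈ P.roots.toFinset := by
    rw [Multiset.mem_toFinset, mem_roots hP]; exact h0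
  have hcard : (P.roots.toFinset.erase 0).card ≤ 1 := by
    rw [Finset.card_erase_of_mem hz]; omega
  obtain ⟨b, hb0, hb⟩ : ∃ b : ℂ, b ≠ 0 ∧ P.roots.toFinset ⊆ {0, b} := by
    rw [Finset.card_le_one_iff_subset_singleton] at hcard
    obtain ⟨b, hb⟩ := hcard
    by_cases hb0 : b = 0
    · refine ⟨1, one_ne_zero, ?_⟩
      intro x hx
      by_cases hx0 : x = 0
      · simp [hx0]
      · have := hb (Finset.mem_erase.2 ⟨hx0, hx⟩)
        rw [Finset.mem_singleton] at this
        exact absurd (this.trans hb0) hx0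
    · refine ⟨b, hb0, ?_⟩
      intro x hx
      by_cases hx0 : x = 0
      · simp [hx0]
      · have := hb (Finset.mem_erase.2 ⟨hx0, hx⟩)
        rw [Finset.mem_singleton] at this
        simp [this]
  refine ⟨P.roots.count 0, P.roots.count b, -b, neg_ne_zero.2 hb0, ?_⟩
  have hs := IsAlgClosed.splits P
  have h1 : P = (P.roots.map (fun a => X - C a)).prod := by
    have := hs.eq_prod_roots
    rwa [hm.leadingCoeff, C_1, one_mul] at this
  conv_lhs => rw [h1]
  rw [Finset.prod_multiset_map_count]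
  have h2 : ∏ m ∈ P.roots.toFinset, (X - C m) ^ P.roots.count m
      = ∏ m ∈ ({0, b} : Finset ℂ), (X - C m) ^ P.roots.count m := by
    apply Finset.prod_subset hb
    intro x _ hx
    rw [Multiset.mem_toFinset] at hx
    rw [Multiset.count_eq_zero.2 hx, pow_zero]
  rw [h2, Finset.prod_insert, Finset.prod_singleton]
  · simp [sub_eq_add_neg]
  · simpa using hb0.symm

/-- numerical consequences -/
theorem numerics (P : ℂ[X]) (hm : P.Monic) (h : P.roots.toFinset.card ≤ 2)
    (c : ℕ → ℕ) (hc : ∀ i, P.coeff i = (c i : ℂ)) (hc0 : c 0 = 0) (m n2 : ℕ) (hm2 : 2 ≤ m)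
    (hdeg : P.natDegree = m) (hc1 : c (m - 1) = m) (hc2 : c (m - 2) + n2 = m.choose 2) :
    ∃ s r a : ℕ, 1 ≤ r ∧ s + r = m ∧ r * a = m ∧ 2 * n2 = m * (a - 1) ∧ (∀ i < s, c i = 0) ∧
      P = X ^ s * (X + C (a : ℂ)) ^ r := by
  have h0 : P.eval 0 = 0 := by
    rw [← coeff_zero_eq_eval_zero, hc, hc0]; simp
  obtain ⟨s, r, a, ha, hP⟩ := two_roots P hm h h0
  have hsr : s + r = m := by
    rw [← hdeg, hP, natDegree_mul (pow_ne_zero _ X_ne_zero) (pow_ne_zero _ (X_add_C_ne_zero a)),
      natDegree_pow, natDegree_pow, natDegree_X, natDegree_X_add_C]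
    ring
  have hco : ∀ j, (c (j + s) : ℂ) = a ^ (r - j) * (r.choose j : ℂ) := by
    intro j
    rw [← hc, hP, coeff_X_pow_mul, coeff_X_add_C_pow]
  have hlow : ∀ i < s, c i = 0 := by
    intro i hi
    have : (c i : ℂ) = 0 := by
      rw [← hc, hP, coeff_X_pow_mul', if_neg (by omega)]
    exact_mod_cast this
  have hr : 1 ≤ r := by
    by_contra hr0
    have := hlow (m - 1) (by omega)
    omega
  have h1 : (m : ℂ) = a * r := by
    have := hco (r - 1)
    rw [show r - 1 + s = m - 1 by omega, hc1, show r - (r - 1) = 1 by omega, pow_one,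
      Nat.choose_symm hr, Nat.choose_one_right] at this
    exact this
  have hrC : (r : ℂ) ≠ 0 := by exact_mod_cast (by omega : r ≠ 0)
  have ha' : a = m / r := by field_simp; exact h1.symm
  have hdvd : r ∣ m := by
    have := hco 0
    rw [zero_add, Nat.sub_zero, Nat.choose_zero_right, Nat.cast_one, mul_one, ha', div_pow,
      eq_div_iff (pow_ne_zero _ hrC)] at this
    have h3 : c s * r ^ r = m ^ r := by exact_mod_cast this
    have hr0 : r ≠ 0 := by omega
    have h4 : r ^ r ∣ m ^ r := ⟨c s, by rw [← h3]; ring⟩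
    exact (Nat.pow_dvd_pow_iff hr0).1 h4
  obtain ⟨b, hb⟩ := hdvd
  have hab : a = (b : ℂ) := by
    rw [ha', hb]; push_cast; field_simp
  have hb1 : 1 ≤ b := by
    rcases Nat.eq_zero_or_pos b with hb' | hb'
    · rw [hb', mul_zero] at hb; omega
    · exact hb'
  refine ⟨s, r, b, hr, hsr, hb.symm, ?_, hlow, by rw [hP, hab]⟩
  -- second coefficient
  have h2 : (c (m - 2) : ℂ) = b ^ 2 * (r.choose 2 : ℂ) := by
    by_cases hr2 : 2 ≤ r
    · have := hco (r - 2)
      rw [show r - 2 + s = m - 2 by omega, show r - (r - 2) = 2 by omega,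
        Nat.choose_symm hr2, hab] at this
      exact this
    · have hr1 : r = 1 := by omega
      rw [hr1]
      have := hlow (m - 2) (by omega)
      rw [this]; simp
  have h3 : c (m - 2) = b ^ 2 * r.choose 2 := by exact_mod_cast h2
  have h4 : 2 * r.choose 2 = r * (r - 1) := by
    rw [Nat.choose_two_right, Nat.mul_div_cancel']
    exact (Nat.even_mul_pred_self r).two_dvd
  have h5 : 2 * m.choose 2 = m * (m - 1) := by
    rw [Nat.choose_two_right, Nat.mul_div_cancel']
    exact (Nat.even_mul_pred_self m).two_dvd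
  obtain ⟨r', rfl⟩ : ∃ r', r = r' + 1 := ⟨r - 1, by omega⟩
  obtain ⟨b', rfl⟩ : ∃ b', b = b' + 1 := ⟨b - 1, by omega⟩
  obtain ⟨m', hm'⟩ : ∃ m', m = m' + 1 := ⟨m - 1, by omega⟩
  rw [hm'] at h5 hb ⊢
  rw [hm'] at hc2
  simp only [Nat.add_sub_cancel] at h4 h5 ⊢
  have h6 : 2 * c (m' + 1 - 2) + 2 * n2 = (m' + 1) * m' := by rw [← h5, ← hc2]; ring
  rw [hm'] at h3
  rw [h3] at h6
  have h7 : 2 * ((b' + 1) ^ 2 * (r' + 1).choose 2) = (b' + 1) ^ 2 * ((r' + 1) * r') := by
    rw [← h4]; ring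
  rw [h7] at h6
  have h8 : (b' + 1) ^ 2 * ((r' + 1) * r') = (m' + 1) * ((b' + 1) * r') := by rw [hb]; ring
  rw [h8] at h6
  have h9 : m' = (b' + 1) * r' + b' := by nlinarith
  have : (m' + 1) * m' = (m' + 1) * ((b' + 1) * r') + (m' + 1) * b' := by
    conv_lhs => rw [h9]
    conv_rhs => rw [h9]
    ring
  omega

end Pool.Agent.Q157.EC
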