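import Mathlib
import Pool.Agent.Q157.EC.Count

set_option autoImplicit false

namespace Pool.Agent.Q157.EC

open SimpleGraph Finset

variable {V : Type*} [Fintype V] [DecidableEq V] (G : SimpleGraph V) [DecidableRel G.Adj]

/-- number of edge covers with `i` edges -/
def cnt (i : ℕ) : ℕ := ((covers G).filter (fun S => S.card = i)).card

theorem mem_covers {S : Finset (Sym2 V)} : S ∈ covers G ↔ S ⊆ G.edgeFinset ∧ Cov S univ := by
  simp [covers]

theorem cnt_eq (i : ℕ) :
    cnt G i = ((powersetCard i G.edgeFinset).filter (fun S => Cov S univ)).card := by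
  unfold cnt covers
  congr 1
  ext S
  simp only [mem_filter, mem_powerset, mem_powersetCard]
  tauto

theorem deg_le_of_uncov {S : Finset (Sym2 V)} (hS : S ⊆ G.edgeFinset) {v : V}
    (hv : ∀ e ∈ S, v ∉ e) : G.degree v + S.card ≤ G.edgeFinset.card := by
  rw [degree_eq, ← Finset.card_union_of_disjoint]
  · apply Finset.card_le_card
    intro e he
    rcases mem_union.1 he with h | h
    · exact (mem_filter.1 h).1
    · exact hS h
  · rw [Finset.disjoint_left]
    intro e he he'
    exact hv e he' (mem_filter.1 he).2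

theorem not_cov {S : Finset (Sym2 V)} (h : ¬ Cov S (univ : Finset V)) : ∃ v, ∀ e ∈ S, v ∉ e := by
  unfold Cov at h
  push Not at h
  obtain ⟨v, -, hv⟩ := h
  exact ⟨v, hv⟩

theorem cnt_top (hdeg : ∀ v, 2 ≤ G.degree v) : cnt G G.edgeFinset.card = 1 := by
  rw [cnt_eq, powersetCard_self, filter_singleton, if_pos, card_singleton]
  by_contra h
  obtain ⟨v, hv⟩ := not_cov h
  have := deg_le_of_uncov G (Subset.refl _) hv
  have := hdeg v
  omega

theorem cnt_gt {i : ℕ} (hi : G.edgeFinset.card < i) : cnt G i = 0 := by
  rw [cnt_eq, powersetCard_eq_empty.2 hi]; simp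

theorem cnt_sub_one (hdeg : ∀ v, 2 ≤ G.degree v) (hm : 1 ≤ G.edgeFinset.card) :
    cnt G (G.edgeFinset.card - 1) = G.edgeFinset.card := by
  rw [cnt_eq, filter_true_of_mem, card_powersetCard, Nat.choose_symm hm, Nat.choose_one_right]
  intro S hS
  rw [mem_powersetCard] at hS
  by_contra h
  obtain ⟨v, hv⟩ := not_cov h
  have := deg_le_of_uncov G hS.1 hv
  have := hdeg v
  omega

theorem cnt_sub_two (hdeg : ∀ v, 2 ≤ G.degree v) (hm : 2 ≤ G.edgeFinset.card) :
    cnt G (G.edgeFinset.card - 2) + (univ.filter (fun v => G.degree v = 2)).card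
      = G.edgeFinset.card.choose 2 := by
  classical
  rw [cnt_eq]
  have h1 : (univ.filter (fun v => G.degree v = 2)).card
      = ((powersetCard (G.edgeFinset.card - 2) G.edgeFinset).filter
          (fun S => ¬ Cov S univ)).card := by
    apply Finset.card_bij (fun v _ => G.edgeFinset.filter (fun e => v ∉ e))
    · intro v hv
      rw [mem_filter] at hv
      rw [mem_filter, mem_powersetCard]
      refine ⟨⟨filter_subset _ _, ?_⟩, ?_⟩
      · have h := Finset.card_filter_add_card_filter_not (s := G.edgeFinset) (fun e => v ∈ e)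
        rw [← degree_eq, hv.2] at h
        omega
      · intro hc
        obtain ⟨e, he, hve⟩ := hc v (mem_univ v)
        exact (mem_filter.1 he).2 hve
    · intro v hv w hw hvw
      by_contra hne
      rw [mem_filter] at hv
      have hsub : G.edgeFinset.filter (fun e => v ∈ e) ⊆ {s(v, w)} := by
        intro e he
        rw [mem_filter] at he
        have hwe : w ∈ e := by
          by_contra hwe
          have : e ∈ G.edgeFinset.filter (fun e => w ∉ e) := mem_filter.2 ⟨he.1, hwe⟩
          rw [← hvw] at this
          exact (mem_filter.1 this).2 he.2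
        rw [mem_singleton]
        exact (Sym2.mem_and_mem_iff hne).1 ⟨he.2, hwe⟩
      have := Finset.card_le_card hsub
      rw [← degree_eq, hv.2, card_singleton] at this
      omega
    · intro S hS
      rw [mem_filter, mem_powersetCard] at hS
      obtain ⟨⟨hS1, hS2⟩, hS3⟩ := hS
      obtain ⟨v, hv⟩ := not_cov hS3
      have h1 := deg_le_of_uncov G hS1 hv
      have h2 := hdeg v
      have h3 : G.degree v = 2 := by omega
      refine ⟨v, by simp [h3], ?_⟩
      symm
      apply Finset.eq_of_subset_of_card_le
      · intro e he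
        exact mem_filter.2 ⟨hS1 he, hv e he⟩
      · have h := Finset.card_filter_add_card_filter_not (s := G.edgeFinset) (fun e => v ∈ e)
        rw [← degree_eq, h3] at h
        omega
  rw [h1, Finset.card_filter_add_card_filter_not, card_powersetCard, Nat.choose_symm hm]

theorem cnt_lt {ρ : ℕ} (h : ∀ i < ρ, cnt G i = 0) :
    ∀ S ⊆ G.edgeFinset, Cov S univ → ρ ≤ S.card := by
  intro S hS hc
  by_contra hlt
  have := h S.card (by omega)
  unfold cnt at this
  rw [card_eq_zero] at this
  have : S ∈ (∅ : Finset (Finset (Sym2 V))) := by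
    rw [← this, mem_filter, mem_covers]
    exact ⟨⟨hS, hc⟩, rfl⟩
  simp at this

theorem cnt_zero (hdeg : ∀ v, 2 ≤ G.degree v) [Nonempty V] : cnt G 0 = 0 := by
  rw [cnt_eq, powersetCard_zero, filter_singleton, if_neg, card_empty]
  intro h
  obtain ⟨e, he, -⟩ := h (Classical.arbitrary V) (mem_univ _)
  simp at he

end Pool.Agent.Q157.EC
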