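import Mathlib
import Pool.Agent.Q157.EC.Count

set_option autoImplicit false

namespace Pool.Agent.Q157.EC

open SimpleGraph Finset

variable {V : Type*} [Fintype V] [DecidableEq V] (G : SimpleGraph V) [DecidableRel G.Adj]

/-- inclusion-exclusion for the alternating sum over edge covers -/
theorem alt_sum : ∑ S ∈ covers G, (-1 : ℤ) ^ S.card
    = ∑ U ∈ (univ : Finset V).powerset, (-1 : ℤ) ^ U.card *
        (if G.edgeFinset.filter (fun e => ∀ v ∈ U, v ∉ e) = ∅ then 1 else 0) := by
  classical
  have h1 : ∑ S ∈ covers G, (-1 : ℤ) ^ S.card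
      = ∑ S ∈ G.edgeFinset.powerset, (-1 : ℤ) ^ S.card *
        ∑ U ∈ (univ.filter (fun v : V => ∀ e ∈ S, v ∉ e)).powerset, (-1 : ℤ) ^ U.card := by
    unfold covers
    rw [Finset.sum_filter]
    refine Finset.sum_congr rfl fun S _ => ?_
    rw [Finset.sum_powerset_neg_one_pow_card]
    by_cases h : Cov S (univ : Finset V)
    · rw [if_pos h, if_pos, mul_one]
      rw [filter_eq_empty_iff]
      intro v hv hne
      obtain ⟨e, he, hve⟩ := h v hv
      exact hne e he hve
    · rw [if_neg h, if_neg, mul_zero]
      intro hemp
      apply h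
      intro v hv
      by_contra hc
      push Not at hc
      rw [filter_eq_empty_iff] at hemp
      exact hemp hv hc
  have h2 : ∀ S : Finset (Sym2 V), (univ.filter (fun v : V => ∀ e ∈ S, v ∉ e)).powerset
      = (univ : Finset V).powerset.filter (fun U => ∀ v ∈ U, ∀ e ∈ S, v ∉ e) := by
    intro S
    ext U
    simp only [mem_powerset, mem_filter, true_and, Finset.subset_iff, mem_univ]
    tauto
  rw [h1]
  have h3 : ∀ S ∈ G.edgeFinset.powerset, (-1 : ℤ) ^ S.card *
        ∑ U ∈ (univ.filter (fun v : V => ∀ e ∈ S, v ∉ e)).powerset, (-1 : ℤ) ^ U.card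
      = ∑ U ∈ (univ : Finset V).powerset,
        (if (∀ v ∈ U, ∀ e ∈ S, v ∉ e) then (-1 : ℤ) ^ U.card * (-1 : ℤ) ^ S.card else 0) := by
    intro S _
    rw [h2 S, Finset.sum_filter, Finset.mul_sum]
    refine Finset.sum_congr rfl fun U _ => ?_
    split_ifs
    · ring
    · simp
  rw [Finset.sum_congr rfl h3, Finset.sum_comm]
  refine Finset.sum_congr rfl fun U _ => ?_
  rw [← Finset.sum_powerset_neg_one_pow_card, Finset.mul_sum, ← Finset.sum_filter]
  apply Finset.sum_congr
  · ext S
    simp only [mem_powerset, mem_filter, Finset.subset_iff]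
    constructor
    · rintro ⟨h1, h2⟩ e he
      exact ⟨h1 he, fun v hv => h2 v hv e he⟩
    · intro h
      exact ⟨fun e he => (h he).1, fun v hv e he => (h he).2 v hv⟩
  · intro S _; rfl

theorem small_case (hV : Fintype.card V = 5)
    (hE : G.edgeFinset.card = 6) : 0 ≤ ∑ S ∈ covers G, (-1 : ℤ) ^ S.card := by
  classical
  rw [alt_sum]
  set f : Finset V → ℤ := fun U => (-1 : ℤ) ^ U.card *
        (if G.edgeFinset.filter (fun e => ∀ v ∈ U, v ∉ e) = ∅ then 1 else 0) with hf
  have hsplit : ∑ U ∈ (univ : Finset V).powerset, f U
      = ∑ j ∈ range 6, ∑ U ∈ powersetCard j (univ : Finset V), f U := by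
    rw [Finset.sum_powerset, Finset.card_univ, hV]
  rw [hsplit]
  simp only [Finset.sum_range_succ, Finset.sum_range_zero, zero_add]
  -- size 0
  have hcardf : ∀ U : Finset V, 0 < (G.edgeFinset.filter (fun e => ∀ v ∈ U, v ∉ e)).card →
      f U = 0 := by
    intro U hU
    rw [hf]
    simp only
    rw [if_neg, mul_zero]
    intro h
    rw [h] at hU
    simp at hU
  have s0 : ∑ U ∈ powersetCard 0 (univ : Finset V), f U = 0 := by
    apply Finset.sum_eq_zero
    intro U hU
    rw [mem_powersetCard, card_eq_zero] at hU
    apply hcardf
    rw [hU.2]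
    simp [hE]
  have s1 : ∑ U ∈ powersetCard 1 (univ : Finset V), f U = 0 := by
    apply Finset.sum_eq_zero
    intro U hU
    rw [mem_powersetCard, card_eq_one] at hU
    obtain ⟨-, x, rfl⟩ := hU
    apply hcardf
    -- the degree of x is at most 4
    have h := Finset.card_filter_add_card_filter_not (s := G.edgeFinset) (fun e => x ∈ e)
    rw [← degree_eq, hE] at h
    have h2 : G.degree x < Fintype.card V := G.degree_lt_card_verts x
    have h3 : G.edgeFinset.filter (fun e => ∀ v ∈ ({x} : Finset V), v ∉ e)
        = G.edgeFinset.filter (fun e => ¬ x ∈ e) := by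
      apply Finset.filter_congr
      intro e _
      simp
    rw [h3]
    omega
  have s2 : 0 ≤ ∑ U ∈ powersetCard 2 (univ : Finset V), f U := by
    apply Finset.sum_nonneg
    intro U hU
    rw [mem_powersetCard] at hU
    rw [hf]
    simp only
    rw [hU.2]
    split_ifs <;> norm_num
  have s3 : -4 ≤ ∑ U ∈ powersetCard 3 (univ : Finset V), f U := by
    have hle : ((powersetCard 3 (univ : Finset V)).filter (fun U =>
        G.edgeFinset.filter (fun e => ∀ v ∈ U, v ∉ e) = ∅)).card ≤ 4 := by
      have h1 := Finset.card_filter_add_card_filter_not (s := powersetCard 3 (univ : Finset V))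
        (fun U => G.edgeFinset.filter (fun e => ∀ v ∈ U, v ∉ e) = ∅)
      rw [card_powersetCard, Finset.card_univ, hV] at h1
      have h2 : G.edgeFinset.card ≤ ((powersetCard 3 (univ : Finset V)).filter (fun U =>
        ¬ G.edgeFinset.filter (fun e => ∀ v ∈ U, v ∉ e) = ∅)).card := by
        apply Finset.card_le_card_of_injOn (fun e => univ \ e.toFinset)
        · intro e he
          have he' : e ∈ G.edgeFinset := he
          rw [mem_coe, mem_filter, mem_powersetCard]
          have hd := Sym2.card_toFinset_of_not_isDiag e (G.not_isDiag_of_mem_edgeFinset he')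
          refine ⟨⟨subset_univ _, ?_⟩, ?_⟩
          · rw [Finset.card_sdiff_of_subset (subset_univ _), Finset.card_univ, hV, hd]
          · intro hemp
            rw [filter_eq_empty_iff] at hemp
            apply hemp he'
            intro v hv hve
            rw [mem_sdiff, Sym2.mem_toFinset] at hv
            exact hv.2 hve
        · intro e _ e' _ hee
          simp only at hee
          have h5 : e.toFinset = e'.toFinset := by
            have h6 := congrArg (fun s => univ \ s) hee
            simpa using h6
          ext v
          rw [← Sym2.mem_toFinset, h5, Sym2.mem_toFinset]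
      have h3 : Nat.choose 5 3 = 10 := by decide
      omega
    calc (-4 : ℤ) ≤ - (((powersetCard 3 (univ : Finset V)).filter (fun U =>
        G.edgeFinset.filter (fun e => ∀ v ∈ U, v ∉ e) = ∅)).card : ℤ) := by
            have : (((powersetCard 3 (univ : Finset V)).filter (fun U =>
              G.edgeFinset.filter (fun e => ∀ v ∈ U, v ∉ e) = ∅)).card : ℤ) ≤ 4 := by
              exact_mod_cast hle
            linarith
      _ = ∑ U ∈ powersetCard 3 (univ : Finset V), f U := by
            rw [Finset.card_filter, Nat.cast_sum, ← Finset.sum_neg_distrib]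
            refine Finset.sum_congr rfl fun U hU => ?_
            rw [mem_powersetCard] at hU
            rw [hf]
            simp only
            rw [hU.2]
            split_ifs <;> norm_num
  have s4 : ∑ U ∈ powersetCard 4 (univ : Finset V), f U = 5 := by
    have : ∀ U ∈ powersetCard 4 (univ : Finset V), f U = 1 := by
      intro U hU
      rw [mem_powersetCard] at hU
      rw [hf]
      simp only
      rw [hU.2, if_pos]
      · norm_num
      · rw [filter_eq_empty_iff]
        intro e he hc
        have hd := Sym2.card_toFinset_of_not_isDiag e (G.not_isDiag_of_mem_edgeFinset he)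
        have hdis : Disjoint U e.toFinset := by
          rw [Finset.disjoint_left]
          intro v hv hve
          rw [Sym2.mem_toFinset] at hve
          exact hc v hv hve
        have := Finset.card_le_univ (U ∪ e.toFinset)
        rw [Finset.card_union_of_disjoint hdis] at this
        omega
    rw [Finset.sum_congr rfl this, Finset.sum_const, card_powersetCard, Finset.card_univ, hV]
    norm_num [Nat.choose]
  have s5 : ∑ U ∈ powersetCard 5 (univ : Finset V), f U = -1 := by
    have h5 : powersetCard 5 (univ : Finset V) = {univ} := by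
      have : (univ : Finset V).card = 5 := by rw [Finset.card_univ, hV]
      rw [← this, powersetCard_self]
    rw [h5, Finset.sum_singleton, hf]
    simp only
    rw [Finset.card_univ, hV, if_pos]
    · norm_num
    · rw [filter_eq_empty_iff]
      intro e he hc
      induction e with
      | _ a b => exact hc a (mem_univ _) (by simp)
  rw [s0, s1, s4, s5]
  linarith

end Pool.Agent.Q157.EC
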