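import Mathlib
import Pool.Agent.Q157.EC.Struct
import Pool.Agent.Q157.EC.Coef
import Pool.Agent.Q157.EC.Small
import Pool.Agent.Q157.EC.Alg

set_option autoImplicit false

namespace Pool.Agent.Q157.EC

open SimpleGraph Finset

variable {V : Type*} [Fintype V] [DecidableEq V] (G : SimpleGraph V) [DecidableRel G.Adj]

theorem poly_eq (P : Polynomial ℂ) (hP : ∀ i, P.coeff i = (cnt G i : ℂ)) :
    P = ∑ S ∈ covers G, Polynomial.X ^ S.card := by
  ext i
  rw [hP, Polynomial.finset_sum_coeff]
  simp only [Polynomial.coeff_X_pow]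
  unfold cnt
  rw [Finset.card_filter]
  push_cast
  refine Finset.sum_congr rfl fun S _ => ?_
  by_cases h : S.card = i
  · rw [if_pos h, if_pos h.symm]
  · rw [if_neg h, if_neg (fun h' => h h'.symm)]

theorem iso_K3 (hV : Fintype.card V = 3) (hE : G.edgeFinset.card = 3) :
    Nonempty (G ≃g (⊤ : SimpleGraph (Fin 3))) := by
  classical
  have htop : G = ⊤ := by
    have h1 : G.edgeFinset ⊆ (⊤ : SimpleGraph V).edgeFinset :=
      SimpleGraph.edgeFinset_mono le_top
    have h2 : (⊤ : SimpleGraph V).edgeFinset.card = 3 := by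
      rw [SimpleGraph.card_edgeFinset_top_eq_card_choose_two, hV]; rfl
    have h3 : G.edgeFinset = (⊤ : SimpleGraph V).edgeFinset :=
      Finset.eq_of_subset_of_card_le h1 (by rw [h2, hE])
    exact SimpleGraph.edgeFinset_inj.1 h3
  have e : V ≃ Fin 3 := Fintype.equivFinOfCardEq hV
  subst htop
  exact ⟨SimpleGraph.Iso.completeGraph e⟩

theorem main (hconn : G.Connected) (hdeg : ∀ v, 2 ≤ G.degree v) (hex : ∃ v, G.degree v = 2)
    (P : Polynomial ℂ) (hP : ∀ i, P.coeff i = (cnt G i : ℂ)) (h : P.roots.toFinset.card ≤ 2) :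
    Nonempty (G ≃g (⊤ : SimpleGraph (Fin 3))) := by
  classical
  obtain ⟨v0, hv0⟩ := hex
  have hne : Nonempty V := ⟨v0⟩
  have hn3 : 3 ≤ Fintype.card V := by
    have := G.degree_lt_card_verts v0
    omega
  set n := Fintype.card V with hn
  set m := G.edgeFinset.card with hm
  set n2 := (univ.filter (fun v => G.degree v = 2)).card with hn2
  have hsum : ∑ v, G.degree v = 2 * m := G.sum_degrees_eq_twice_card_edges
  have hn2n : n2 ≤ n := by
    rw [hn2, hn, ← Finset.card_univ]; exact Finset.card_filter_le _ _
  have hn2pos : 1 ≤ n2 := by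
    rw [hn2, Nat.one_le_iff_ne_zero, Finset.card_ne_zero]
    exact ⟨v0, by simp [hv0]⟩
  -- degree sum bound
  have hds : 3 * n ≤ 2 * m + n2 := by
    have h1 : ∑ v : V, 3 ≤ ∑ v : V, (G.degree v + if G.degree v = 2 then 1 else 0) := by
      apply Finset.sum_le_sum
      intro v _
      have := hdeg v
      split_ifs <;> omega
    rw [Finset.sum_add_distrib, hsum, ← Finset.card_filter] at h1
    simp only [Finset.sum_const, Finset.card_univ, smul_eq_mul] at h1
    rw [← hn2, ← hn] at h1
    omega
  have hnm : n ≤ m := by omega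
  have hchoose : m ≤ n.choose 2 := G.card_edgeFinset_le_card_choose_two
  have hc1 := cnt_sub_one G hdeg (by omega)
  have hc2 := cnt_sub_two G hdeg (by omega)
  rw [← hm] at hc1 hc2
  rw [← hn2] at hc2
  have hcm : P.coeff m = 1 := by rw [hP, hm, cnt_top G hdeg]; simp
  have hnat : P.natDegree = m := by
    apply Polynomial.natDegree_eq_of_le_of_coeff_ne_zero
    · rw [Polynomial.natDegree_le_iff_coeff_eq_zero]
      intro N hN
      rw [hP, cnt_gt G hN]; simp
    · rw [hcm]; exact one_ne_zero
  have hmonic : P.Monic := by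
    unfold Polynomial.Monic Polynomial.leadingCoeff
    rw [hnat, hcm]
  obtain ⟨s, r, a, hr, hsr, hra, h2n2, hlow, hPe⟩ := numerics P hmonic h (cnt G) hP
    (cnt_zero G hdeg) m n2 (by omega) hnat hc1 hc2
  have hρ := cnt_lt G hlow
  have ha2 : 2 ≤ a := by
    by_contra hlt
    have : a - 1 = 0 := by omega
    rw [this] at h2n2
    omega
  have ha3 : a ≤ 3 := by
    by_contra hlt
    have h3 : 3 ≤ a - 1 := by omega
    have : m * 3 ≤ m * (a - 1) := Nat.mul_le_mul_left _ h3
    omega
  have hPs := poly_eq G P hP
  rcases (by omega : a = 2 ∨ a = 3) with ha | ha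
  · -- a = 2
    subst ha
    have hs : s = r := by omega
    subst hs
    have hn2s : n2 = s := by omega
    have hm2 : m = 2 * s := by omega
    have hcard : (covers G).card = 3 ^ s := by
      have h1 : P.eval 1 = ((covers G).card : ℂ) := by
        rw [hPs, Polynomial.eval_finset_sum]; simp
      have h2 : P.eval 1 = 3 ^ s := by
        rw [hPe]
        simp only [Polynomial.eval_mul, Polynomial.eval_pow, Polynomial.eval_X, one_pow, one_mul,
          Polynomial.eval_add, Polynomial.eval_C]
        norm_num
      rw [h2] at h1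
      exact_mod_cast h1.symm
    by_cases h2 : n + 2 ≤ 2 * s
    · exfalso
      obtain ⟨A, F, hC⟩ := struct G hconn hdeg s hρ h2 (by omega)
      have := covers_lt G hconn hdeg hC hn2s
      omega
    · exfalso
      have hs3 : s ≤ 3 := by omega
      rcases (by omega : s = 1 ∨ s = 2 ∨ s = 3) with h1 | h1 | h1
      · omega
      · have : n = 3 := by omega
        rw [this] at hchoose
        have : Nat.choose 3 2 = 3 := rfl
        omega
      · subst h1
        have hn5 : n = 5 := by omega
        have hm6 : m = 6 := by omega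
        have hnn := small_case G hn5 hm6
        have h3 : P.eval (-1) = ((∑ S ∈ covers G, (-1 : ℤ) ^ S.card : ℤ) : ℂ) := by
          rw [hPs, Polynomial.eval_finset_sum]; simp
        have h4 : P.eval (-1) = -1 := by
          rw [hPe]
          simp only [Polynomial.eval_mul, Polynomial.eval_pow, Polynomial.eval_X,
            Polynomial.eval_add, Polynomial.eval_C]
          norm_num
        rw [h4] at h3
        have h5 : (-1 : ℤ) = ∑ S ∈ covers G, (-1 : ℤ) ^ S.card := by exact_mod_cast h3
        omega
  · -- a = 3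
    subst ha
    have hn2m : n2 = m := by omega
    have hnm' : n = m := by omega
    by_cases hr2 : 2 ≤ r
    · exfalso
      obtain ⟨A, F, hC⟩ := struct G hconn hdeg s hρ (by omega) (by omega)
      have := hC.cardE
      omega
    · exact iso_K3 G (by omega) (by omega)

end Pool.Agent.Q157.EC
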